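import Pool.Agent.H524Z.Chq.Main

open Set Pool.Agent.H524Z.Chq

namespace Pool.Agent.Results.MP_8d13c5_an.ANonLindelofSimplex

/-- There is a Choquet simplex `X` (a compact convex subset of a Hausdorff locally convex real
space) such that every bounded continuous function on `ext X` extends to an affine Baire function
on `X` (even to a pointwise limit of a bounded sequence of continuous affine functions), while
`ext X` is not Lindeloef. -/
theorem result :
    ∃ (V : Type) (_ : AddCommGroup V) (_ : Module ℝ V) (_ : TopologicalSpace V)
      (_ : IsTopologicalAddGroup V) (_ : ContinuousSMul ℝ V) (_ : LocallyConvexSpace ℝ V)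
      (_ : T2Space V) (X : Set V),
      IsCompact X ∧ Convex ℝ X ∧ IsChoquetSimplex X ∧ AffineBaireExt X ∧ AffineBaireOneExt X ∧
        ¬ LindelofSpace (extremePoints ℝ X) := by
  obtain ⟨I, X, h1, h2, h3, h4, h5⟩ := main
  exact ⟨I → ℝ, inferInstance, inferInstance, inferInstance, inferInstance, inferInstance,
    inferInstance, inferInstance, X, h1, h2, h3, h4.affineBaireExt, h4,
    fun h => h5 (isLindelof_iff_lindelofSpace.2 h)⟩

end Pool.Agent.Results.MP_8d13c5_an.ANonLindelofSimplex
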